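import Pool.Agent.H58.CT.Targets

/-!
# Cyclic terms: passing to a quotient
-/

set_option autoImplicit false
set_option linter.unusedVariables false

namespace Pool.Agent.H60.CT

open Pool.Agent.H58.CT

section quo

variable {𝒞 : Cln} {A : Type} [Alg 𝒞 A] {e : A → A → Prop}

/-- the setoid of a congruence -/
def qs (he : Cong 𝒞 e) : Setoid A := ⟨e, he.eqv⟩

theorem int_mk (he : Cong 𝒞 e) {I : Type} [Finite I] (t : 𝒞.T I) (a : I → A) :
    Quotient.mk (qs he) (Alg.int t (fun i => (Quotient.mk (qs he) (a i)).out)) =
      Quotient.mk (qs he) (Alg.int t a) :=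
  Quotient.sound (s := qs he)
    (he.cmp I t _ _ fun i => Quotient.exact (s := qs he) (Quotient.out_eq _))

/-- the quotient algebra -/
noncomputable def qAlg (he : Cong 𝒞 e) : Alg 𝒞 (Quotient (qs he)) where
  int t x := Quotient.mk (qs he) (Alg.int t (fun i => (x i).out))
  int_pr i x := by
    rw [Alg.int_pr]
    exact Quotient.out_eq _
  int_comp t s x := by
    rw [Alg.int_comp]
    exact (int_mk he t _).symm
  idem t a := by
    rw [Alg.idem]
    exact Quotient.out_eq _

end quo

theorem pf_QUO : T_QUO := by
  intro 𝒞 A _ _ p _ R e hCC hne hsub hsh he hab hcd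
  obtain ⟨a, b, hab, hab'⟩ := hab
  obtain ⟨c, d, hcd⟩ := hcd
  letI : Alg 𝒞 (Quotient (qs he)) := qAlg he
  have hcard : Nat.card (Quotient (qs he)) < Nat.card A := by
    classical
    letI := Fintype.ofFinite A
    letI := Fintype.ofFinite (Quotient (qs he))
    rw [Nat.card_eq_fintype_card, Nat.card_eq_fintype_card]
    refine Fintype.card_lt_of_surjective_not_injective (Quotient.mk (qs he))
      Quotient.mk_surjective ?_
    intro hinj
    exact hab' (hinj (Quotient.sound (s := qs he) hab))
  obtain ⟨q, hq⟩ := hCC (Quotient (qs he))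
    ((fun r : ZMod p → A => fun j => Quotient.mk (qs he) (r j)) '' R) hcard (hne.image _) (by
      intro I _ t x hx
      choose r hr using hx
      have hx' : x = fun i j => Quotient.mk (qs he) (r i j) := funext fun i => (hr i).2.symm
      subst hx'
      refine ⟨Alg.int t r, hsub I t r fun i => (hr i).1, ?_⟩
      funext j
      exact (int_mk he t (fun i => r i j)).symm) (by
      rintro _ ⟨r, hr, rfl⟩
      exact ⟨sh r, hsh r hr, rfl⟩)
  obtain ⟨r, hr, hrq⟩ := hq
  refine ⟨{a | Quotient.mk (qs he) a = q}, ?_, ?_, r, hr, fun j => congrFun hrq j⟩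
  · intro I _ t x hx
    change Quotient.mk (qs he) (Alg.int t x) = q
    rw [← int_mk he t x]
    have h1 : (fun i => (Quotient.mk (qs he) (x i)).out) = fun _ : I => q.out :=
      funext fun i => congrArg Quotient.out (hx i)
    rw [h1, Alg.idem]
    exact Quotient.out_eq _
  · intro h
    have h1 : Quotient.mk (qs he) c = q := by
      have : c ∈ {a | Quotient.mk (qs he) a = q} := h ▸ Set.mem_univ c
      exact this
    have h2 : Quotient.mk (qs he) d = q := by
      have : d ∈ {a | Quotient.mk (qs he) a = q} := h ▸ Set.mem_univ d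
      exact this
    exact hcd (Quotient.exact (s := qs he) (h1.trans h2.symm))

end Pool.Agent.H60.CT
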