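import Pool.Agent.H58.CT.Targets

/-!
# Cyclic terms for finitely many algebras
-/

set_option autoImplicit false
set_option linter.unusedVariables false

namespace Pool.Agent.H60.CT

open Pool.Agent.H58.CT

section good

variable {𝒞 : Cln} {p : ℕ} [Fact p.Prime]

/-- `t` is constant on the shifts of `x`. -/
def Good {A : Type} [Alg 𝒞 A] (t : 𝒞.T (ZMod p)) (x : ZMod p → A) : Prop :=
  ∀ j : ZMod p, Alg.int t (fun i => x (i + j)) = Alg.int t x

theorem one_good (hIND : T_IND) (hN : NoPrj 𝒞) {A : Type} [Alg 𝒞 A] [Finite A]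
    (hA : Nat.card A < p) (x : ZMod p → A) : ∃ t : 𝒞.T (ZMod p), Good t x := by
  obtain ⟨a, ha⟩ := hIND 𝒞 A p
    (Set.range fun (t : 𝒞.T (ZMod p)) (j : ZMod p) => Alg.int t (fun i => x (i + j))) hN hA
    ⟨_, ⟨𝒞.pr 0, rfl⟩⟩ (by
      intro I _ t r hr
      choose s hs using hr
      have hr' : r = fun i j => Alg.int (s i) (fun i' => x (i' + j)) :=
        funext fun i => (hs i).symm
      subst hr'
      refine ⟨𝒞.comp t s, ?_⟩
      funext j
      exact Alg.int_comp t s _) (by
      rintro _ ⟨t, rfl⟩
      refine ⟨𝒞.comp t (fun i => 𝒞.pr (i + 1)), ?_⟩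
      funext j
      change Alg.int (𝒞.comp t (fun i => 𝒞.pr (i + 1))) (fun i => x (i + j)) =
        Alg.int t (fun i => x (i + (j + 1)))
      rw [Alg.int_comp]
      congr 1
      funext i
      rw [Alg.int_pr]
      congr 1
      ring)
  obtain ⟨t, ht⟩ := ha
  refine ⟨t, fun j => ?_⟩
  have h0 : Alg.int t x = a := by
    have := congrFun ht 0
    simpa using this
  rw [h0]
  exact congrFun ht j

end good

theorem pf_TRM (hIND : T_IND) : T_TRM := by
  intro 𝒞 S _ A _ _ p _ hN hA
  have key : ∀ P : Set (Σ s, ZMod p → A s), P.Finite →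
      ∃ t : 𝒞.T (ZMod p), ∀ q ∈ P, Good t q.2 := by
    intro P hP
    induction P, hP using Set.Finite.induction_on with
    | empty => exact ⟨𝒞.pr 0, fun q hq => absurd hq (Set.notMem_empty q)⟩
    | @insert q0 P _ _ ih =>
      obtain ⟨t, ht⟩ := ih
      obtain ⟨u, hu⟩ := one_good (𝒞 := 𝒞) hIND hN (hA q0.1)
        (fun j => Alg.int t (fun i => q0.2 (i + j)))
      have hint : ∀ (s : S) (z : ZMod p → A s),
          Alg.int (𝒞.comp u (fun j => 𝒞.comp t (fun i => 𝒞.pr (i + j)))) z =
            Alg.int u (fun j => Alg.int t (fun i => z (i + j))) := by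
        intro s z
        rw [Alg.int_comp]
        congr 1
        funext j
        rw [Alg.int_comp]
        congr 1
        funext i
        exact Alg.int_pr _ _
      refine ⟨𝒞.comp u (fun j => 𝒞.comp t (fun i => 𝒞.pr (i + j))), fun q hq => ?_⟩
      intro k
      rw [hint, hint]
      rcases Set.mem_insert_iff.1 hq with rfl | hq
      · have h1 := hu k
        simp only at h1
        rw [← h1]
        congr 1
        funext j
        congr 1
        funext i
        congr 1
        ring
      · have h2 : ∀ j : ZMod p, Alg.int t (fun i => q.2 (i + j)) = Alg.int t q.2 := ht q hq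
        have h3 : ∀ j : ZMod p, Alg.int t (fun i => q.2 (i + j + k)) = Alg.int t q.2 := by
          intro j
          rw [← h2 (j + k)]
          congr 1
          funext i
          congr 1
          ring
        have e1 : (fun j : ZMod p => Alg.int t (fun i => q.2 (i + j + k))) =
            fun _ => Alg.int t q.2 := funext h3
        have e2 : (fun j : ZMod p => Alg.int t (fun i => q.2 (i + j))) =
            fun _ => Alg.int t q.2 := funext h2
        rw [e1, e2]
  obtain ⟨t, ht⟩ := key Set.univ Set.finite_univ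
  exact ⟨t, fun s x => ht ⟨s, x⟩ (Set.mem_univ _) 1⟩

end Pool.Agent.H60.CT
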